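import Mathlib
import Pool.Agent.Lib.MP_129a2b_co.Defs
import Pool.Agent.Lib.MP_129a2b_co.Main

/-!
# `r_2(n)` (and every `r_k(n)`, `k` fixed) has the same order of growth as `r_1(n)`

For every `k ≥ 1` there is `c > 0` with `c * r_1(n) ≤ r_k(n) ≤ r_1(n)` for all `n ≥ k + 1`.
In particular (`k = 2`) `r_2(n) / n = Θ(r_1(n) / n)`, so that `r_2(n) / n` is bounded if and only
if the Erdős–Moser conjecture `r_1(n) = O(n)` holds.
-/

open Pool.Agent.Lib.MP_129a2b_co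

namespace Pool.Agent.Results.MP_129a2b_co.SameOrder

theorem result : ∀ k : ℕ, 1 ≤ k → ∃ c : ℝ, 0 < c ∧ ∀ n : ℕ, k + 1 ≤ n →
    c * (rmax 1 n : ℝ) ≤ (rmax k n : ℝ) ∧ rmax k n ≤ rmax 1 n :=
  fun k hk => main k hk

end Pool.Agent.Results.MP_129a2b_co.SameOrder
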